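import Pool.Agent.UL5.Stmts

/-!
Squad UL5 (MP_c7c9bf_co), row SEL: the choice of the direction.
-/

set_option autoImplicit false

namespace Pool.Agent.UL5.H46

open MeasureTheory Set Pool.Agent.UL3 Pool.Agent.UL4

theorem nhd {C : Set (ℝ × ℝ)} (h : PB C) : C ∈ nhds (0 : ℝ × ℝ) :=
  mem_interior_iff_mem_nhds.1 h.zero_mem

theorem gau_pos {C : Set (ℝ × ℝ)} (h : PB C) {x : ℝ × ℝ} (hx : x ≠ 0) : 0 < gauge C x := by
  refine (gauge_pos (absorbent_nhds_zero (nhd h)) ?_).2 hx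
  exact (NormedSpace.isVonNBounded_iff ℝ).2 h.cpt.isBounded

theorem gau_le {C : Set (ℝ × ℝ)} (h : PB C) {x : ℝ × ℝ} : gauge C x ≤ 1 ↔ x ∈ C := by
  rw [gauge_le_one_iff_mem_closure h.cvx (nhd h), h.cpt.isClosed.closure_eq]

theorem gau_lt {C : Set (ℝ × ℝ)} (h : PB C) {x : ℝ × ℝ} : gauge C x < 1 ↔ x ∈ interior C :=
  gauge_lt_one_iff_mem_interior h.cvx (nhd h)

theorem gau_bd {C : Set (ℝ × ℝ)} (h : PB C) {u : ℝ × ℝ} (hu : u ∈ C) (hu' : u ∉ interior C) :
    gauge C u = 1 := le_antisymm ((gau_le h).2 hu) (not_lt.1 fun hlt => hu' ((gau_lt h).1 hlt))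

theorem bd_gau {C : Set (ℝ × ℝ)} (h : PB C) {x : ℝ × ℝ} (hx : x ≠ 0) :
    (gauge C x)⁻¹ • x ∈ C ∧ (gauge C x)⁻¹ • x ∉ interior C := by
  have hg := gau_pos h hx
  have h1 : gauge C ((gauge C x)⁻¹ • x) = 1 := by
    rw [gauge_smul_of_nonneg (inv_nonneg.2 hg.le), smul_eq_mul, inv_mul_cancel₀ hg.ne']
  constructor
  · rw [← gau_le h, h1]
  · rw [← gau_lt h, h1]
    exact lt_irrefl 1

theorem cr_add_right (a b c : ℝ × ℝ) : cr a (b + c) = cr a b + cr a c := by
  unfold cr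
  simp only [Prod.fst_add, Prod.snd_add]
  ring

theorem cr_smul_right (t : ℝ) (a b : ℝ × ℝ) : cr a (t • b) = t * cr a b := by
  unfold cr
  simp only [Prod.smul_fst, Prod.smul_snd, smul_eq_mul]
  ring

theorem cr_self (a : ℝ × ℝ) : cr a a = 0 := by
  unfold cr
  ring

/-- the chord at the level `A / 4` -/
theorem chord {C : Set (ℝ × ℝ)} (h : PB C) {u w : ℝ × ℝ} (hu : u ≠ 0) (y : ℝ) (hy : 0 < y)
    (hw : w ∈ C) (hyw : y ≤ cr u w) :
    ∃ (q : ℝ × ℝ) (l : ℝ), 0 ≤ l ∧ cr u q = y ∧ q + (l / 2) • u ∈ C ∧ q - (l / 2) • u ∈ C ∧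
      ∀ s : ℝ, q + s • u ∈ C → |s| ≤ l / 2 := by
  have h0 : (0 : ℝ × ℝ) ∈ C := interior_subset h.zero_mem
  have hpos : 0 < cr u w := lt_of_lt_of_le hy hyw
  set w₀ : ℝ × ℝ := (y / cr u w) • w with hw₀
  have hw₀C : w₀ ∈ C := h.cvx.smul_mem_of_zero_mem h0 hw
    ⟨by positivity, by rw [div_le_one hpos]; exact hyw⟩
  have hcr : cr u w₀ = y := by
    rw [hw₀, cr_smul_right]
    field_simp
  set S : Set ℝ := {s : ℝ | w₀ + s • u ∈ C} with hS
  have hcont : Continuous fun s : ℝ => w₀ + s • u := by fun_prop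
  have hScl : IsClosed S := h.cpt.isClosed.preimage hcont
  obtain ⟨R, hR⟩ := h.cpt.isBounded.exists_norm_le
  have hun : 0 < ‖u‖ := norm_pos_iff.2 hu
  have hSsub : S ⊆ Icc (-(2 * R / ‖u‖)) (2 * R / ‖u‖) := by
    intro s hs
    have h1 := hR _ hs
    have h2 := hR _ hw₀C
    have h3 : ‖s • u‖ ≤ 2 * R := by
      have h4 : s • u = (w₀ + s • u) - w₀ := by abel
      rw [h4]
      refine (norm_sub_le _ _).trans ?_
      linarith
    rw [norm_smul, Real.norm_eq_abs, ← le_div_iff₀ hun] at h3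
    exact abs_le.1 h3
  have hScp : IsCompact S := isCompact_Icc.of_isClosed_subset hScl hSsub
  have hSne : S.Nonempty := ⟨0, by
    show w₀ + (0 : ℝ) • u ∈ C
    rw [zero_smul, add_zero]
    exact hw₀C⟩
  obtain ⟨s₁, hs₁, hs₁'⟩ := hScp.exists_isLeast hSne
  obtain ⟨s₂, hs₂, hs₂'⟩ := hScp.exists_isGreatest hSne
  refine ⟨w₀ + ((s₁ + s₂) / 2) • u, s₂ - s₁, by linarith [hs₁' hs₂], ?_, ?_, ?_, ?_⟩
  · rw [cr_add_right, hcr, cr_smul_right, cr_self]
    ring
  · have h1 : w₀ + ((s₁ + s₂) / 2) • u + ((s₂ - s₁) / 2) • u = w₀ + s₂ • u := by module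
    rw [h1]
    exact hs₂
  · have h1 : w₀ + ((s₁ + s₂) / 2) • u - ((s₂ - s₁) / 2) • u = w₀ + s₁ • u := by module
    rw [h1]
    exact hs₁
  · intro s hs
    have h1 : w₀ + ((s₁ + s₂) / 2) • u + s • u = w₀ + ((s₁ + s₂) / 2 + s) • u := by module
    rw [h1] at hs
    have h2 := hs₁' hs
    have h3 := hs₂' hs
    rw [abs_le]
    constructor <;> linarith

/-- points outside of the chord are not interior -/
theorem outside {C : Set (ℝ × ℝ)} {u q : ℝ × ℝ} {l c : ℝ} (hl : l / 2 ≤ c) (hc : 0 < c)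
    (h : ∀ s : ℝ, q + s • u ∈ C → |s| ≤ l / 2) : ∀ s : ℝ, c ≤ |s| → q + s • u ∉ interior C := by
  intro s hs hin
  have hcont : Continuous fun s : ℝ => q + s • u := by fun_prop
  have h1 : (fun s : ℝ => q + s • u) ⁻¹' interior C ∈ nhds s :=
    (isOpen_interior.preimage hcont).mem_nhds hin
  obtain ⟨e, he, hb⟩ := Metric.mem_nhds_iff.1 h1
  rcases le_total 0 s with h0 | h0
  · have h2 : s + e / 2 ∈ Metric.ball s e := by
      rw [Metric.mem_ball, Real.dist_eq]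
      have h3 : s + e / 2 - s = e / 2 := by ring
      rw [h3, abs_of_pos (by positivity)]
      linarith
    have h4 := h _ (interior_subset (hb h2))
    rw [abs_of_nonneg (by linarith)] at h4
    rw [abs_of_nonneg h0] at hs
    linarith
  · have h2 : s - e / 2 ∈ Metric.ball s e := by
      rw [Metric.mem_ball, Real.dist_eq]
      have h3 : s - e / 2 - s = -(e / 2) := by ring
      rw [h3, abs_neg, abs_of_pos (by positivity)]
      linarith
    have h4 := h _ (interior_subset (hb h2))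
    rw [abs_of_nonpos (by linarith)] at h4
    rw [abs_of_nonpos h0] at hs
    linarith

theorem rank_lt : 1 < Module.rank ℝ (ℝ × ℝ) := by
  have h : Module.finrank ℝ (ℝ × ℝ) = 2 := by simp
  rw [← Module.finrank_eq_rank, h]
  norm_num

theorem sel (hhmx : HmxStmt) (hpka : PkaStmt) (hchb : ChbStmt) : SelStmt := by
  intro C hC
  obtain ⟨hH1, hH2, hHc, hHp, hHh⟩ := hhmx C hC
  have h0i : (0 : ℝ × ℝ) ∈ interior C := hC.zero_mem
  have hne : ∀ u : ℝ × ℝ, u ∉ interior C → u ≠ 0 := fun u hu h0 => hu (h0 ▸ h0i)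
  obtain ⟨u₀, hu₀, hu₀', hu₀3⟩ := hpka C hC
  have hH0 := hHp u₀ (hne u₀ hu₀')
  have hA : 0 < ar C := by linarith
  -- the chord of a boundary direction
  have hch : ∀ u ∈ C, u ∉ interior C → ∃ (q : ℝ × ℝ) (l : ℝ), 0 ≤ l ∧ cr u q = ar C / 4 ∧
      q + (l / 2) • u ∈ C ∧ q - (l / 2) • u ∈ C ∧ (∀ s : ℝ, q + s • u ∈ C → |s| ≤ l / 2) ∧
      2 * Hm C u * l ≤ ar C := by
    intro u hu hu'
    obtain ⟨w, hw, hwH⟩ := hH2 u
    obtain ⟨hc1, hc2⟩ := hchb C u hC hu hu'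
    obtain ⟨q, l, hl, hq1, hq2, hq3, hq4⟩ := chord hC (hne u hu') (ar C / 4) (by positivity) hw
      (by rw [hwH]; linarith)
    refine ⟨q, l, hl, hq1, hq2, hq3, hq4, ?_⟩
    apply hc2 (q - (l / 2) • u) l hq3
    · have h1 : q - (l / 2) • u = q + (-(l / 2)) • u := by module
      rw [h1, cr_add_right, cr_smul_right, cr_self, hq1]
      ring
    · have h1 : q - (l / 2) • u + l • u = q + (l / 2) • u := by module
      rw [h1]
      exact hq2
  obtain ⟨q, l, hl, hq1, hq2, hq3, hq4, hq5⟩ := hch u₀ hu₀ hu₀'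
  by_cases hl7 : l ≤ 10 / 7
  · exact ⟨u₀, q, hu₀, hu₀', by linarith, hq1, outside (by linarith) (by norm_num) hq4⟩
  rw [not_le] at hl7
  have hl0 : 0 < l := by linarith
  -- the two points
  have hseg : ∀ s : ℝ, |s| ≤ l / 2 → q + s • u₀ ∈ C := by
    intro s hs
    rw [abs_le] at hs
    have h1 : q + s • u₀ = (1 / 2 + s / l) • (q + (l / 2) • u₀) +
        (1 / 2 - s / l) • (q - (l / 2) • u₀) := by
      have h2 : (s : ℝ) = (s / l) * l := by field_simp
      conv_lhs => rw [h2]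
      module
    rw [h1]
    have h3 : s / l ≤ 1 / 2 := by
      rw [div_le_iff₀ hl0]
      linarith
    have h4 : -(1 / 2) ≤ s / l := by
      rw [le_div_iff₀ hl0]
      linarith
    exact hC.cvx hq2 hq3 (by linarith) (by linarith) (by ring)
  have hp : q + (5 / 7 : ℝ) • u₀ ∈ C := hseg _ (by rw [abs_of_pos (by norm_num)]; linarith)
  have hp' : q + (-(5 / 7) : ℝ) • u₀ ∈ C := hseg _ (by
    rw [abs_neg, abs_of_pos (by norm_num)]
    linarith)
  set p : ℝ × ℝ := q + (5 / 7 : ℝ) • u₀ with hpdef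
  set p' : ℝ × ℝ := q + (-(5 / 7) : ℝ) • u₀ with hpdef'
  have hcr : cr p p' = 5 / 14 * ar C := by
    have h1 : cr p p' = 10 / 7 * cr u₀ q := by
      rw [hpdef, hpdef']
      unfold cr
      simp only [Prod.fst_add, Prod.snd_add, Prod.smul_fst, Prod.smul_snd, smul_eq_mul]
      ring
    rw [h1, hq1]
    ring
  have hp0 : p ≠ 0 := by
    intro h
    rw [h] at hcr
    have : cr (0 : ℝ × ℝ) p' = 0 := by
      unfold cr
      simp
    rw [this] at hcr
    linarith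
  have hHp' : 5 / 14 * ar C ≤ Hm C p := by
    have := hH1 p p' hp'
    rw [hcr, abs_of_pos (by positivity)] at this
    exact this
  -- the intermediate value theorem
  have hpre : IsPreconnected ({(0 : ℝ × ℝ)}ᶜ) :=
    (isConnected_compl_singleton_of_one_lt_rank rank_lt 0).isPreconnected
  have hcont : ContinuousOn (fun x : ℝ × ℝ => Hm C x / gauge C x) {(0 : ℝ × ℝ)}ᶜ := by
    apply ContinuousOn.div hHc.continuousOn (continuous_gauge hC.cvx (nhd hC)).continuousOn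
    intro x hx
    exact (gau_pos hC hx).ne'
  have hmem : 7 / 20 * ar C ∈ Icc (Hm C u₀ / gauge C u₀) (Hm C p / gauge C p) := by
    constructor
    · rw [gau_bd hC hu₀ hu₀', div_one]
      linarith
    · have hg := gau_pos hC hp0
      have hg1 : gauge C p ≤ 1 := (gau_le hC).2 hp
      rw [le_div_iff₀ hg]
      have : 7 / 20 * ar C * gauge C p ≤ 7 / 20 * ar C * 1 :=
        mul_le_mul_of_nonneg_left hg1 (by positivity)
      linarith
  obtain ⟨x, hx, hxe⟩ := hpre.intermediate_value (hne u₀ hu₀') hp0 hcont hmem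
  have hx0 : x ≠ 0 := hx
  have hxe' : Hm C x / gauge C x = 7 / 20 * ar C := hxe
  obtain ⟨hu, hu'⟩ := bd_gau hC hx0
  set u : ℝ × ℝ := (gauge C x)⁻¹ • x with hudef
  have hHu : Hm C u = 7 / 20 * ar C := by
    rw [hudef, hHh _ _ (inv_nonneg.2 (gau_pos hC hx0).le), ← hxe']
    rw [div_eq_inv_mul]
  obtain ⟨q', l', hl', hq1', hq2', hq3', hq4', hq5'⟩ := hch u hu hu'
  refine ⟨u, q', hu, hu', by rw [hHu]; linarith, hq1', outside ?_ (by norm_num) hq4'⟩
  rw [hHu] at hq5'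
  have h1 : ar C * (7 / 10 * l') ≤ ar C * 1 := by linarith
  have h2 := le_of_mul_le_mul_left h1 hA
  linarith

end Pool.Agent.UL5.H46
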